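import Pool.Agent.Helper2_Pak.Stmts

/-!
# E3: the subtractor, from the adder by a rotation by 180 degrees
-/

namespace Pool.Agent.Helper2_Pak.H24

open Pool.Agent.Helper2_Pack (Motion)
open Pool.Agent.Helper2_Pak

/-- the motion followed by the rotation by 180 degrees about the origin -/
noncomputable def neg (g : Motion) : Motion := ⟨-g.u, -g.v, by rw [norm_neg]; exact g.unit⟩

theorem tile_neg (t : ℝ) (g : Motion) : tile t (neg g) = -tile t g := by
  ext z
  simp only [tile, Set.mem_neg, Set.mem_image, Motion.app, neg]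
  constructor
  · rintro ⟨w, hw, rfl⟩
    exact ⟨w, hw, by ring⟩
  · rintro ⟨w, hw, hz⟩
    exact ⟨w, hw, by linear_combination -hz⟩

theorem mem_interior_neg (t : ℝ) (g : Motion) (z : ℂ) :
    z ∈ interior (tile t (neg g)) ↔ -z ∈ interior (tile t g) := by
  have h : interior (-tile t g) = -interior (tile t g) := by
    have := (Homeomorph.neg ℂ).preimage_interior (tile t g)
    simpa using this.symm
  rw [tile_neg, h, Set.mem_neg]

theorem rot_neg (g : Motion) : rot (neg g) 1 = rot g 3 := by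
  have h : (-Complex.I) ^ 3 = Complex.I := by
    rw [neg_pow, Complex.I_pow_three]; ring
  simp only [rot, neg, h]
  ring

theorem tpL_neg (t : ℝ) (g : Motion) (x : ℝ) : tpL t (neg g) 1 x = -btL t g 3 (-x) := by
  have h1 : (neg g).v.im = -g.v.im := by simp [neg]
  have h2 : (neg g).v.re = -g.v.re := by simp [neg]
  have h3 : HY t 1 = HY t 3 := rfl
  rw [tpL, btL, rot_neg, h1, h2, h3]
  ring

theorem lfL_neg (t : ℝ) (g : Motion) (y : ℝ) : lfL t (neg g) 1 y = -rtL t g 3 (-y) := by
  have h1 : (neg g).v.im = -g.v.im := by simp [neg]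
  have h2 : (neg g).v.re = -g.v.re := by simp [neg]
  have h3 : HX t 1 = HX t 3 := rfl
  rw [lfL, rtL, rot_neg, h1, h2, h3]
  ring

/-- E3 -/
theorem e3 (h : E2Stmt) : E3Stmt := by
  intro t g a Y₀ Y₂ y ht ht' hn hY hy h1 h2 h3 h4
  obtain ⟨-, hre, him, hu⟩ := hn
  have hn' : NearK (1 / 1024) ⟨-a.re - 1, -a.im - 1⟩ 1 (neg g) := by
    refine ⟨by norm_num, ?_, ?_, ?_⟩
    · rw [← abs_neg] at hre
      convert hre using 2
      simp [neg]; ring
    · rw [← abs_neg] at him
      convert him using 2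
      simp [neg]; ring
    · rw [← norm_neg] at hu
      have e : (neg g).u - Complex.I ^ 1 = -(g.u - Complex.I ^ 3) := by
        rw [Complex.I_pow_three]
        show -g.u - Complex.I ^ 1 = _
        ring
      rw [e]
      exact hu
  have key := h t (neg g) ⟨-a.re - 1, -a.im - 1⟩ (-Y₂) (-Y₀) (-y) ht ht' hn'
    (by
      rw [← abs_neg] at hY
      convert hY using 2
      ring)
    (by
      rw [← abs_neg] at hy
      convert hy using 2
      ring)
    (by
      rw [mem_interior_neg]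
      have e : -(⟨-a.re - 1 + 1 / 4, -Y₂ + t ^ 3⟩ : ℂ) = ⟨a.re + 3 / 4, Y₂ - t ^ 3⟩ := by
        apply Complex.ext <;> simp <;> ring
      show -(⟨-a.re - 1 + 1 / 4, -Y₂ + t ^ 3⟩ : ℂ) ∉ _
      rw [e]
      exact h2)
    (by
      rw [mem_interior_neg]
      have e : -(⟨-a.re - 1 + 3 / 4, -Y₂ + t ^ 3⟩ : ℂ) = ⟨a.re + 1 / 4, Y₂ - t ^ 3⟩ := by
        apply Complex.ext <;> simp <;> ring
      show -(⟨-a.re - 1 + 3 / 4, -Y₂ + t ^ 3⟩ : ℂ) ∉ _
      rw [e]
      exact h1)
    (by
      rw [tpL_neg]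
      have e : -(-a.re - 1 + 1 / 8) = a.re + 7 / 8 := by ring
      show -btL t g 3 (-(-a.re - 1 + 1 / 8)) ≤ -Y₀
      rw [e]
      linarith)
    (by
      rw [tpL_neg]
      have e : -(-a.re - 1 + 7 / 8) = a.re + 1 / 8 := by ring
      show -btL t g 3 (-(-a.re - 1 + 7 / 8)) ≤ -Y₀
      rw [e]
      linarith)
  rw [lfL_neg, neg_neg] at key
  simp only at key
  nlinarith [key]

end Pool.Agent.Helper2_Pak.H24
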